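import Pool.Agent.Helper12.SG.GoalsE

/-!
# Packet SGE-QAF (project SG, MP_a41896_nt): the norm frame of a quadratic algebra
-/

set_option autoImplicit false

namespace Pool.Agent.Helper27.SGB

open Pool.Agent.Helper12.SG Pool.Agent.Helper42.SG

theorem qaf : QAF := by
  intro K _ v A _ _ N hN w β hw hβ
  have hN0 : N 0 0 := by
    have := hN.const 0
    rwa [map_zero, map_zero] at this
  have hw0 : 0 ≤ w := by linarith
  refine ⟨?_, ?_, ?_, ?_, ?_, ?_⟩
  · intro k
    refine ⟨v k, 0, hN.const k, hN0, fun _ => ?_, fun _ => ?_⟩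
    · rw [mul_zero]
      exact max_le le_rfl (v.nonneg k)
    · rw [mul_zero, add_zero]
  · rintro f g S T ⟨S1, S2, h1, h2, h3, h4⟩ ⟨T1, T2, k1, k2, k3, k4⟩
    have hS1 := hN.nonneg _ _ h1
    have hS2 := hN.nonneg _ _ h2
    have hT1 := hN.nonneg _ _ k1
    have hT2 := hN.nonneg _ _ k2
    have e1 : N (f.re * g.re) (S1 * T1) := hN.mul _ _ _ _ h1 k1
    have e2 : N (β * f.im * g.im) (w ^ 2 * S2 * T2) :=
      hN.mul _ _ _ _ (hN.mul _ _ _ _ hβ h2) k2
    have e3 : N (f.re * g.im) (S1 * T2) := hN.mul _ _ _ _ h1 k2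
    have e4 : N (f.im * g.re) (S2 * T1) := hN.mul _ _ _ _ h2 k1
    have r1 : (f * g).re = f.re * g.re + β * f.im * g.im := by
      rw [QuadraticAlgebra.re_mul]
    have r2 : (f * g).im = f.re * g.im + f.im * g.re := by
      rw [QuadraticAlgebra.im_mul, zero_mul, zero_mul, add_zero]
    by_cases hv : IsNonarchimedean v
    · refine ⟨max (S1 * T1) (w ^ 2 * S2 * T2), max (S1 * T2) (S2 * T1), ?_, ?_, fun _ => ?_,
        fun h => absurd hv h⟩
      · rw [r1]; exact hN.max hv _ _ _ _ e1 e2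
      · rw [r2]; exact hN.max hv _ _ _ _ e3 e4
      · have a3 := h3 hv
        have b3 := k3 hv
        have a1 : S1 ≤ S := (le_max_left _ _).trans a3
        have a2 : w * S2 ≤ S := (le_max_right _ _).trans a3
        have b1 : T1 ≤ T := (le_max_left _ _).trans b3
        have b2 : w * T2 ≤ T := (le_max_right _ _).trans b3
        have hwS : 0 ≤ w * S2 := mul_nonneg hw0 hS2
        have hwT : 0 ≤ w * T2 := mul_nonneg hw0 hT2
        have hS : 0 ≤ S := hS1.trans a1
        refine max_le (max_le ?_ ?_) ?_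
        · exact mul_le_mul a1 b1 hT1 hS
        · calc w ^ 2 * S2 * T2 = (w * S2) * (w * T2) := by ring
            _ ≤ S * T := mul_le_mul a2 b2 hwT hS
        · rw [mul_max_of_nonneg _ _ hw0]
          refine max_le ?_ ?_
          · calc w * (S1 * T2) = S1 * (w * T2) := by ring
              _ ≤ S * T := mul_le_mul a1 b2 hwT hS
          · calc w * (S2 * T1) = (w * S2) * T1 := by ring
              _ ≤ S * T := mul_le_mul a2 b1 hT1 hS
    · refine ⟨S1 * T1 + w ^ 2 * S2 * T2, S1 * T2 + S2 * T1, ?_, ?_, fun h => absurd h hv,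
        fun _ => ?_⟩
      · rw [r1]; exact hN.add _ _ _ _ e1 e2
      · rw [r2]; exact hN.add _ _ _ _ e3 e4
      · have a3 := h4 hv
        have b3 := k4 hv
        have hwS : 0 ≤ w * S2 := mul_nonneg hw0 hS2
        have hwT : 0 ≤ w * T2 := mul_nonneg hw0 hT2
        calc S1 * T1 + w ^ 2 * S2 * T2 + w * (S1 * T2 + S2 * T1)
            = (S1 + w * S2) * (T1 + w * T2) := by ring
          _ ≤ S * T := mul_le_mul a3 b3 (add_nonneg hT1 hwT) (le_trans (add_nonneg hS1 hwS) a3)
  · rintro f g S T ⟨S1, S2, h1, h2, h3, h4⟩ ⟨T1, T2, k1, k2, k3, k4⟩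
    by_cases hv : IsNonarchimedean v
    · refine ⟨max S1 T1, max S2 T2, hN.max hv _ _ _ _ h1 k1, hN.max hv _ _ _ _ h2 k2, fun _ => ?_,
        fun h => absurd hv h⟩
      have a3 := h3 hv
      have b3 := k3 hv
      have hS : 0 ≤ S := (hN.nonneg _ _ h1).trans ((le_max_left _ _).trans a3)
      have hT : 0 ≤ T := (hN.nonneg _ _ k1).trans ((le_max_left _ _).trans b3)
      rw [mul_max_of_nonneg _ _ hw0]
      refine max_le (max_le ?_ ?_) (max_le ?_ ?_)
      · exact ((le_max_left _ _).trans a3).trans (by linarith)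
      · exact ((le_max_left _ _).trans b3).trans (by linarith)
      · exact ((le_max_right _ _).trans a3).trans (by linarith)
      · exact ((le_max_right _ _).trans b3).trans (by linarith)
    · refine ⟨S1 + T1, S2 + T2, hN.add _ _ _ _ h1 k1, hN.add _ _ _ _ h2 k2, fun h => absurd h hv,
        fun _ => ?_⟩
      have a3 := h4 hv
      have b3 := k4 hv
      linarith
  · rintro hv f g S T ⟨S1, S2, h1, h2, h3, h4⟩ ⟨T1, T2, k1, k2, k3, k4⟩
    refine ⟨max S1 T1, max S2 T2, hN.max hv _ _ _ _ h1 k1, hN.max hv _ _ _ _ h2 k2, fun _ => ?_,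
      fun h => absurd hv h⟩
    have a3 := h3 hv
    have b3 := k3 hv
    rw [mul_max_of_nonneg _ _ hw0]
    refine max_le (max_le ?_ ?_) (max_le ?_ ?_)
    · exact ((le_max_left _ _).trans a3).trans (le_max_left _ _)
    · exact ((le_max_left _ _).trans b3).trans (le_max_right _ _)
    · exact ((le_max_right _ _).trans a3).trans (le_max_left _ _)
    · exact ((le_max_right _ _).trans b3).trans (le_max_right _ _)
  · rintro f S T ⟨S1, S2, h1, h2, h3, h4⟩ hST
    exact ⟨S1, S2, h1, h2, fun h => (h3 h).trans hST, fun h => (h4 h).trans hST⟩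
  · rintro f T ⟨S1, S2, h1, h2, h3, h4⟩
    have hS1 := hN.nonneg _ _ h1
    have hS2 := hN.nonneg _ _ h2
    by_cases hv : IsNonarchimedean v
    · exact hS1.trans ((le_max_left _ _).trans (h3 hv))
    · exact (add_nonneg hS1 (mul_nonneg hw0 hS2)).trans (h4 hv)

end Pool.Agent.Helper27.SGB
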